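import Mathlib

set_option autoImplicit false

open Filter Topology
open scoped InnerProductSpace

namespace Pool.Agent.PiBasis

variable {𝕜 : Type} [RCLike 𝕜]
variable {Z : Type*} [NormedAddCommGroup Z] [NormedSpace 𝕜 Z]
variable {H : Type*} [NormedAddCommGroup H] [InnerProductSpace 𝕜 H]

/-- First step of the domination estimate. -/
lemma dom_step (q : Z →L[𝕜] H) (hq : ∀ z, ‖q z‖ ≤ ‖z‖) (v : Z) (hv : ‖v‖ ≤ 3 / 2)
    (hdom : ∀ z, ‖z - v‖ ≤ 1 / 8 → ‖z‖ ≤ ‖q z‖)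
    (P : Z →L[𝕜] Z) (δ : ℝ) (hδ0 : 0 ≤ δ) (hδ1 : δ ≤ 1)
    (hP : ∀ z, ‖P z‖ ≤ (1 + δ ^ 2) * ‖z‖)
    (g w : Z) (hg : P g = g) (hw : P w = 0) (hgv : ‖g - v‖ ≤ 3 / 32) (hw1 : ‖w‖ ≤ 1) :
    ‖⟪q g, q w⟫_𝕜‖ ≤ 28 * δ := by
  set c : 𝕜 := ⟪q g, q w⟫_𝕜 with hc
  have hg2 : ‖g‖ ≤ 2 := by
    have : g = (g - v) + v := by abel
    rw [this]
    refine (norm_add_le _ _).trans ?_
    linarith
  have hqw : ‖q w‖ ≤ 1 := (hq w).trans hw1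
  have hqw0 := norm_nonneg (q w)
  have hc2 : ‖c‖ ≤ 2 := by
    calc ‖c‖ ≤ ‖q g‖ * ‖q w‖ := norm_inner_le_norm _ _
      _ ≤ 2 * 1 := mul_le_mul ((hq g).trans hg2) hqw hqw0 (by norm_num)
      _ = 2 := by norm_num
  set t : 𝕜 := -(((1 / 64 : ℝ) : 𝕜) * (starRingEnd 𝕜) c) with ht
  have htn : ‖t‖ = (1 / 64) * ‖c‖ := by
    rw [ht, norm_neg, norm_mul, RCLike.norm_conj, RCLike.norm_ofReal, abs_of_pos (by norm_num)]
  have htw : ‖t • w‖ ≤ 1 / 32 := by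
    rw [norm_smul, htn]
    have h0 := norm_nonneg c
    have h1 := norm_nonneg w
    nlinarith
  have hnear : ‖g + t • w - v‖ ≤ 1 / 8 := by
    have : g + t • w - v = (g - v) + t • w := by abel
    rw [this]
    refine (norm_add_le _ _).trans ?_
    linarith
  have hgdom : ‖g‖ ≤ ‖q g‖ := hdom g (by linarith)
  have hgq : ‖q g‖ = ‖g‖ := le_antisymm (hq g) hgdom
  have h1 : ‖g‖ ≤ (1 + δ ^ 2) * ‖q (g + t • w)‖ := by
    have h2 : P (g + t • w) = g := by rw [map_add, map_smul, hw, smul_zero, add_zero, hg]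
    calc ‖g‖ = ‖P (g + t • w)‖ := by rw [h2]
      _ ≤ (1 + δ ^ 2) * ‖g + t • w‖ := hP _
      _ ≤ (1 + δ ^ 2) * ‖q (g + t • w)‖ :=
        mul_le_mul_of_nonneg_left (hdom _ hnear) (by positivity)
  have h2 : ‖q (g + t • w)‖ ^ 2 = ‖q g‖ ^ 2 - 2 * ((1 / 64) * ‖c‖ ^ 2) + (‖t‖ * ‖q w‖) ^ 2 := by
    rw [map_add, map_smul, norm_add_sq (𝕜 := 𝕜), inner_smul_right, ← hc, ht]
    have : RCLike.re (-(((1 / 64 : ℝ) : 𝕜) * (starRingEnd 𝕜) c) * c) = -((1 / 64) * ‖c‖ ^ 2) := by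
      rw [neg_mul, mul_assoc, RCLike.conj_mul, map_neg, RCLike.re_ofReal_mul]
      norm_cast
    rw [this, ← ht, norm_smul]
    ring
  rw [htn, hgq] at h2
  set a := ‖g‖ with ha
  set b := ‖q (g + t • w)‖ with hb
  set γ := ‖c‖ with hγ
  have ha0 : 0 ≤ a := norm_nonneg _
  have hb0 : 0 ≤ b := norm_nonneg _
  have hγ0 : 0 ≤ γ := norm_nonneg _
  have h3 : b ^ 2 ≤ a ^ 2 - (1 / 64) * γ ^ 2 := by
    rw [h2]
    have : (1 / 64 * γ * ‖q w‖) ^ 2 ≤ (1 / 64) * γ ^ 2 := by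
      have : (1 / 64 * γ * ‖q w‖) ^ 2 = (1 / 4096) * γ ^ 2 * ‖q w‖ ^ 2 := by ring
      rw [this]
      have h5 : ‖q w‖ ^ 2 ≤ 1 := by nlinarith
      nlinarith [sq_nonneg γ]
    linarith
  have h4 : a ^ 2 ≤ (1 + δ ^ 2) ^ 2 * b ^ 2 := by
    rw [← mul_pow]
    exact pow_le_pow_left₀ ha0 h1 2
  have hδ2 : δ ^ 2 ≤ 1 := by nlinarith
  have hδ20 : 0 ≤ δ ^ 2 := sq_nonneg _
  have h5 : (1 + δ ^ 2) ^ 2 ≤ 1 + 3 * δ ^ 2 := by nlinarith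
  have h6 : a ^ 2 ≤ (1 + 3 * δ ^ 2) * b ^ 2 :=
    h4.trans (mul_le_mul_of_nonneg_right h5 (sq_nonneg _))
  -- γ^2/64 ≤ a^2 - b^2 ≤ 3 δ^2 b^2 ≤ 12 δ^2
  have h7 : b ^ 2 ≤ 4 := by
    have h10 : a ^ 2 ≤ 2 ^ 2 := pow_le_pow_left₀ ha0 hg2 2
    have h11 : 0 ≤ γ ^ 2 := sq_nonneg γ
    linarith
  have h9 : δ ^ 2 * b ^ 2 ≤ δ ^ 2 * 4 := mul_le_mul_of_nonneg_left h7 hδ20
  have h8 : γ ^ 2 ≤ (28 * δ) ^ 2 := by
    have : (28 * δ) ^ 2 = 784 * δ ^ 2 := by ring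
    rw [this]
    linarith
  exact (pow_le_pow_iff_left₀ hγ0 (by positivity) (by norm_num)).mp h8

/-- The domination estimate: near-contractive projections are almost orthogonal with respect to
a Hilbertian seminorm which dominates near a vector almost fixed by the projection. -/
lemma dom (q : Z →L[𝕜] H) (hq : ∀ z, ‖q z‖ ≤ ‖z‖) (v : Z) (hv : ‖v‖ ≤ 3 / 2)
    (hdom : ∀ z, ‖z - v‖ ≤ 1 / 8 → ‖z‖ ≤ ‖q z‖)
    (P : Z →L[𝕜] Z) (δ : ℝ) (hδ0 : 0 ≤ δ) (hδ1 : δ ≤ 1)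
    (hP : ∀ z, ‖P z‖ ≤ (1 + δ ^ 2) * ‖z‖) (hPP : ∀ z, P (P z) = P z)
    (hPv : ‖P v - v‖ ≤ 1 / 16)
    (f w : Z) (hf : P f = f) (hw : P w = 0) :
    ‖⟪q f, q w⟫_𝕜‖ ≤ 1792 * δ * ‖f‖ * ‖w‖ := by
  -- normalised version
  have key : ∀ f w : Z, P f = f → P w = 0 → ‖f‖ ≤ 1 → ‖w‖ ≤ 1 →
      ‖⟪q f, q w⟫_𝕜‖ ≤ 1792 * δ := by
    intro f w hf hw hf1 hw1
    have h0 := dom_step q hq v hv hdom P δ hδ0 hδ1 hP (P v) w (hPP v) hw (by linarith) hw1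
    have h1 := dom_step q hq v hv hdom P δ hδ0 hδ1 hP (P v + ((1 / 32 : ℝ) : 𝕜) • f) w
      (by rw [map_add, map_smul, hPP, hf]) hw (by
        have : P v + ((1 / 32 : ℝ) : 𝕜) • f - v = (P v - v) + ((1 / 32 : ℝ) : 𝕜) • f := by abel
        rw [this]
        refine (norm_add_le _ _).trans ?_
        have : ‖((1 / 32 : ℝ) : 𝕜) • f‖ ≤ 1 / 32 := by
          rw [norm_smul, RCLike.norm_ofReal, abs_of_pos (by norm_num)]
          linarith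
        linarith) hw1
    have h2 : ⟪q f, q w⟫_𝕜
        = (32 : 𝕜) * (⟪q (P v + ((1 / 32 : ℝ) : 𝕜) • f), q w⟫_𝕜 - ⟪q (P v), q w⟫_𝕜) := by
      rw [map_add, map_smul, inner_add_left, inner_smul_left, RCLike.conj_ofReal]
      have : ((1 / 32 : ℝ) : 𝕜) = 1 / 32 := by push_cast; ring
      rw [this]
      ring
    rw [h2, norm_mul]
    have h32 : ‖(32 : 𝕜)‖ = 32 := by simp
    rw [h32]
    have h3 := norm_sub_le (⟪q (P v + ((1 / 32 : ℝ) : 𝕜) • f), q w⟫_𝕜) (⟪q (P v), q w⟫_𝕜)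
    linarith
  rcases (norm_nonneg f).eq_or_lt with h | hf0
  · have : f = 0 := norm_eq_zero.mp h.symm
    subst this
    simp
  rcases (norm_nonneg w).eq_or_lt with h | hw0
  · have : w = 0 := norm_eq_zero.mp h.symm
    subst this
    simp
  have h1 := key (((‖f‖⁻¹ : ℝ) : 𝕜) • f) (((‖w‖⁻¹ : ℝ) : 𝕜) • w) (by rw [map_smul, hf])
    (by rw [map_smul, hw, smul_zero])
    (by rw [norm_smul, RCLike.norm_ofReal, abs_of_pos (by positivity), inv_mul_cancel₀ hf0.ne'])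
    (by rw [norm_smul, RCLike.norm_ofReal, abs_of_pos (by positivity), inv_mul_cancel₀ hw0.ne'])
  rw [map_smul, map_smul, inner_smul_left, inner_smul_right, RCLike.conj_ofReal, norm_mul, norm_mul,
    RCLike.norm_ofReal, RCLike.norm_ofReal, abs_of_pos (by positivity), abs_of_pos (by positivity)] at h1
  have h2 : ‖⟪q f, q w⟫_𝕜‖ = (‖f‖⁻¹ * (‖w‖⁻¹ * ‖⟪q f, q w⟫_𝕜‖)) * (‖f‖ * ‖w‖) := by
    field_simp
  rw [h2]
  calc _ ≤ (1792 * δ) * (‖f‖ * ‖w‖) := mul_le_mul_of_nonneg_right h1 (by positivity)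
    _ = _ := by ring

end Pool.Agent.PiBasis
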