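import Mathlib

set_option autoImplicit false

open Filter Topology
open scoped InnerProductSpace ENNReal

namespace Pool.Agent.PiBasis

variable {𝕜 : Type} [RCLike 𝕜]

/-- The Hilbert space of square summable sequences. -/
abbrev HH (𝕜 : Type) [RCLike 𝕜] : Type := lp (fun _ : ℕ => 𝕜) 2

lemma hasSum_sq (x : HH 𝕜) : HasSum (fun i => ‖x i‖ ^ 2) (‖x‖ ^ 2) := by
  have h := lp.hasSum_norm (p := 2) (by norm_num) x
  simpa using h

lemma norm_le_of_coord {u v : HH 𝕜} {c : ℝ} (hc : 0 ≤ c) (h : ∀ i, ‖u i‖ ≤ c * ‖v i‖) :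
    ‖u‖ ≤ c * ‖v‖ := by
  have hu := hasSum_sq u
  have hv := (hasSum_sq v).mul_left (c ^ 2)
  have h1 : ‖u‖ ^ 2 ≤ c ^ 2 * ‖v‖ ^ 2 := by
    refine hasSum_le (fun i => ?_) hu hv
    have := h i
    calc ‖u i‖ ^ 2 ≤ (c * ‖v i‖) ^ 2 := pow_le_pow_left₀ (norm_nonneg _) this 2
      _ = c ^ 2 * ‖v i‖ ^ 2 := by ring
  rw [← mul_pow] at h1
  exact (pow_le_pow_iff_left₀ (norm_nonneg _) (by positivity) (by norm_num)).mp h1

/-- The shifted sequence. -/
def shiftFun (x : ℕ → 𝕜) : ℕ → 𝕜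
  | 0 => 0
  | n + 1 => x n

lemma memlp_of_sq {x : ℕ → 𝕜} (h : Summable fun i => ‖x i‖ ^ 2) : Memℓp x 2 := by
  rw [memℓp_gen_iff (by norm_num)]
  simpa using h

lemma summable_shift (x : HH 𝕜) : Summable fun i => ‖shiftFun (fun k => x k) i‖ ^ 2 := by
  rw [← summable_nat_add_iff 1]
  exact (hasSum_sq x).summable

lemma tsum_shift (x : HH 𝕜) : ∑' i, ‖shiftFun (fun k => x k) i‖ ^ 2 = ‖x‖ ^ 2 := by
  rw [(summable_shift x).tsum_eq_zero_add]
  simp only [shiftFun, norm_zero]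
  rw [(hasSum_sq x).tsum_eq]
  ring

/-- The unilateral shift as a linear map. -/
def shiftLin : HH 𝕜 →ₗ[𝕜] HH 𝕜 where
  toFun x := ⟨shiftFun (fun k => x k), memlp_of_sq (summable_shift x)⟩
  map_add' x y := by
    ext i
    cases i with
    | zero => exact (add_zero (0 : 𝕜)).symm
    | succ n => rfl
  map_smul' c x := by
    ext i
    cases i with
    | zero => simp [shiftFun]
    | succ n => simp [shiftFun]

@[simp] lemma shiftLin_zero (x : HH 𝕜) : shiftLin x 0 = 0 := rfl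
@[simp] lemma shiftLin_succ (x : HH 𝕜) (n : ℕ) : shiftLin x (n + 1) = x n := rfl

lemma norm_shiftLin (x : HH 𝕜) : ‖shiftLin x‖ = ‖x‖ := by
  have h1 := (hasSum_sq (shiftLin x)).tsum_eq
  have h2 : ∑' i, ‖shiftLin x i‖ ^ 2 = ‖x‖ ^ 2 := tsum_shift x
  rw [h2] at h1
  exact (sq_eq_sq₀ (norm_nonneg _) (norm_nonneg _)).mp h1.symm

/-- The unilateral shift as a linear isometry. -/
noncomputable def shiftIso : HH 𝕜 →ₗᵢ[𝕜] HH 𝕜 := ⟨shiftLin, norm_shiftLin⟩

/-- The unilateral shift. -/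
noncomputable def S : HH 𝕜 →L[𝕜] HH 𝕜 := shiftIso.toContinuousLinearMap

@[simp] lemma S_zero_coord (x : HH 𝕜) : S x 0 = 0 := rfl
@[simp] lemma S_succ_coord (x : HH 𝕜) (n : ℕ) : S x (n + 1) = x n := rfl

@[simp] lemma norm_S (x : HH 𝕜) : ‖S x‖ = ‖x‖ := norm_shiftLin x

@[simp] lemma inner_S (x y : HH 𝕜) : ⟪S x, S y⟫_𝕜 = ⟪x, y⟫_𝕜 := shiftIso.inner_map_map x y

/-- Unit vectors. -/
noncomputable def ev (k : ℕ) : HH 𝕜 := lp.single 2 k 1

lemma ev_apply (k i : ℕ) : (ev k : HH 𝕜) i = if i = k then 1 else 0 := by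
  rw [ev, lp.single_apply, Pi.single_apply]

lemma norm_ev (k : ℕ) : ‖(ev k : HH 𝕜)‖ = 1 := by
  rw [ev, lp.norm_single (by norm_num)]
  simp

lemma inner_S_ev0 (x : HH 𝕜) : ⟪S x, ev 0⟫_𝕜 = 0 := by
  rw [ev, lp.inner_single_right]
  simp

lemma S_ev (k : ℕ) : S (ev k : HH 𝕜) = ev (k + 1) := by
  ext i
  cases i with
  | zero => simp [ev_apply]
  | succ n => simp [ev_apply]

/-- Slowly decaying weights. -/
noncomputable def tw (n k : ℕ) : ℝ := max 0 (1 - (k : ℝ) / (n + 1))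

lemma tw_nonneg (n k : ℕ) : 0 ≤ tw n k := le_max_left _ _
lemma tw_le_one (n k : ℕ) : tw n k ≤ 1 := by
  apply max_le (by norm_num)
  have : 0 ≤ (k : ℝ) / (n + 1) := by positivity
  linarith

lemma tw_eq_zero {n k : ℕ} (h : n + 1 ≤ k) : tw n k = 0 := by
  apply max_eq_left
  have h1 : (1 : ℝ) ≤ (k : ℝ) / (n + 1) := by
    rw [le_div_iff₀ (by positivity)]
    have : ((n + 1 : ℕ) : ℝ) ≤ k := by exact_mod_cast h
    push_cast at this
    linarith
  linarith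

lemma tw_diff (n k : ℕ) : |tw n (k + 1) - tw n k| ≤ 1 / (n + 1) := by
  unfold tw
  have h := abs_max_sub_max_le_abs (1 - ((k + 1 : ℕ) : ℝ) / (n + 1)) (1 - (k : ℝ) / (n + 1)) 0
  rw [max_comm _ (0 : ℝ), max_comm _ (0 : ℝ)] at h
  refine h.trans ?_
  push_cast
  have : 1 - ((k : ℝ) + 1) / (n + 1) - (1 - (k : ℝ) / (n + 1)) = -(1 / (n + 1)) := by
    field_simp
    ring
  rw [this, abs_neg, abs_of_nonneg (by positivity)]

lemma tw_tendsto (k : ℕ) : Tendsto (fun n => tw n k) atTop (𝓝 1) := by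
  unfold tw
  have h1 : Tendsto (fun n : ℕ => (k : ℝ) * (1 / ((n : ℝ) + 1))) atTop (𝓝 (k * 0)) :=
    tendsto_one_div_add_atTop_nhds_zero_nat.const_mul _
  have h2 : Tendsto (fun n : ℕ => max 0 (1 - (k : ℝ) * (1 / ((n : ℝ) + 1)))) atTop
      (𝓝 (max 0 (1 - k * 0))) := tendsto_const_nhds.max (tendsto_const_nhds.sub h1)
  simpa [div_eq_mul_inv] using h2

lemma norm_tw (n k : ℕ) (a : 𝕜) : ‖((tw n k : ℝ) : 𝕜) * a‖ ≤ ‖a‖ := by
  rw [norm_mul, RCLike.norm_ofReal, abs_of_nonneg (tw_nonneg n k)]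
  exact mul_le_of_le_one_left (norm_nonneg _) (tw_le_one n k)

lemma memlp_tw (n : ℕ) (x : HH 𝕜) : Memℓp (fun k => ((tw n k : ℝ) : 𝕜) * x k) 2 := by
  apply memlp_of_sq
  refine Summable.of_nonneg_of_le (fun i => by positivity) (fun i => ?_) (hasSum_sq x).summable
  exact pow_le_pow_left₀ (norm_nonneg _) (norm_tw n i (x i)) 2

/-- Slowly decaying truncation as a linear map. -/
noncomputable def DLin (n : ℕ) : HH 𝕜 →ₗ[𝕜] HH 𝕜 where
  toFun x := ⟨fun k => ((tw n k : ℝ) : 𝕜) * x k, memlp_tw n x⟩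
  map_add' x y := by
    ext i
    exact mul_add _ (x i) (y i)
  map_smul' c x := by
    ext i
    exact mul_left_comm _ c (x i)

/-- Slowly decaying truncation. -/
noncomputable def D (n : ℕ) : HH 𝕜 →L[𝕜] HH 𝕜 :=
  (DLin n).mkContinuous 1 (fun x => by
    apply norm_le_of_coord zero_le_one
    intro i
    rw [one_mul]
    exact norm_tw n i (x i))

lemma D_apply (n : ℕ) (x : HH 𝕜) (k : ℕ) : D n x k = ((tw n k : ℝ) : 𝕜) * x k := rfl

lemma norm_D_le (n : ℕ) (x : HH 𝕜) : ‖D n x‖ ≤ ‖x‖ := by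
  have := norm_le_of_coord (u := D n x) (v := x) zero_le_one (fun i => by
    rw [one_mul, D_apply]; exact norm_tw n i (x i))
  simpa using this

lemma comm_le (n : ℕ) (x : HH 𝕜) : ‖D n (S x) - S (D n x)‖ ≤ 1 / (n + 1) * ‖x‖ := by
  rw [← norm_S x]
  apply norm_le_of_coord (by positivity)
  intro i
  rw [lp.coeFn_sub, Pi.sub_apply]
  cases i with
  | zero => simp [D_apply]
  | succ k =>
    rw [D_apply, S_succ_coord, S_succ_coord, D_apply, ← sub_mul, norm_mul,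
      ← RCLike.ofReal_sub, RCLike.norm_ofReal]
    exact mul_le_mul_of_nonneg_right (tw_diff n k) (norm_nonneg _)

lemma D_mem_span (n : ℕ) (x : HH 𝕜) :
    D n x ∈ Submodule.span 𝕜 (ev '' (Finset.range (n + 1) : Set ℕ)) := by
  have : D n x = ∑ k ∈ Finset.range (n + 1), (((tw n k : ℝ) : 𝕜) * x k) • (ev k : HH 𝕜) := by
    ext i
    rw [D_apply, lp.coeFn_sum, Finset.sum_apply]
    simp only [lp.coeFn_smul, Pi.smul_apply, ev_apply, smul_eq_mul, mul_ite, mul_one, mul_zero]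
    rw [Finset.sum_ite_eq]
    split_ifs with h
    · rfl
    · rw [tw_eq_zero (by simpa using h)]
      simp
  rw [this]
  refine Submodule.sum_mem _ fun k hk => Submodule.smul_mem _ _ (Submodule.subset_span ?_)
  exact ⟨k, by simpa using hk, rfl⟩

lemma D_finite (n : ℕ) : FiniteDimensional 𝕜 (LinearMap.range ((D n : HH 𝕜 →L[𝕜] HH 𝕜) : HH 𝕜 →ₗ[𝕜] HH 𝕜)) := by
  have h1 : FiniteDimensional 𝕜 (Submodule.span 𝕜 (ev '' (Finset.range (n + 1) : Set ℕ) : Set (HH 𝕜))) :=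
    FiniteDimensional.span_of_finite 𝕜 ((Finset.finite_toSet _).image _)
  refine Submodule.finiteDimensional_of_le (S₂ := Submodule.span 𝕜 (ev '' (Finset.range (n + 1) : Set ℕ))) ?_
  rintro _ ⟨x, rfl⟩
  exact D_mem_span n x

lemma D_tendsto (x : HH 𝕜) : Tendsto (fun n => D n x) atTop (𝓝 x) := by
  rw [tendsto_iff_norm_sub_tendsto_zero]
  have h1 : ∀ n, ‖D n x - x‖ ^ 2 = ∑' k, (1 - tw n k) ^ 2 * ‖x k‖ ^ 2 := by
    intro n
    rw [← (hasSum_sq (D n x - x)).tsum_eq]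
    congr 1
    ext k
    rw [lp.coeFn_sub, Pi.sub_apply, D_apply]
    have : ((tw n k : ℝ) : 𝕜) * x k - x k = ((tw n k - 1 : ℝ) : 𝕜) * x k := by
      push_cast; ring
    rw [this, norm_mul, RCLike.norm_ofReal, mul_pow, sq_abs]
    ring
  have h2 : Tendsto (fun n => ∑' k, (1 - tw n k) ^ 2 * ‖x k‖ ^ 2) atTop
      (𝓝 (∑' k : ℕ, (1 - 1) ^ 2 * ‖x k‖ ^ 2)) := by
    refine tendsto_tsum_of_dominated_convergence (bound := fun k => ‖x k‖ ^ 2)
      (hasSum_sq x).summable (fun k => ?_) (Eventually.of_forall fun n k => ?_)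
    · exact (((tendsto_const_nhds.sub (tw_tendsto k)).pow 2).mul_const _)
    · rw [Real.norm_eq_abs, abs_of_nonneg (by positivity)]
      have h0 := tw_nonneg n k
      have h1 := tw_le_one n k
      have : (1 - tw n k) ^ 2 ≤ 1 := by nlinarith
      exact mul_le_of_le_one_left (by positivity) this
  simp only [sub_self, ne_eq, OfNat.ofNat_ne_zero, not_false_eq_true, zero_pow, zero_mul,
    tsum_zero] at h2
  have h3 : Tendsto (fun n => Real.sqrt (‖D n x - x‖ ^ 2)) atTop (𝓝 (Real.sqrt 0)) := by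
    refine (Real.continuous_sqrt.tendsto 0).comp ?_
    simpa [h1] using h2
  simpa [Real.sqrt_sq (norm_nonneg _)] using h3

end Pool.Agent.PiBasis
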