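import Mathlib
import Pool.Agent.PiBasis.Shift
import Pool.Agent.PiBasis.Dom

set_option autoImplicit false

open Filter Topology
open scoped InnerProductSpace

namespace Pool.Agent.PiBasis

variable {𝕜 : Type} [RCLike 𝕜]

/-- The two-component Hilbert space with a sup of four Hilbertian seminorms, realised as a closed
subspace of `H × H × H × H` (sup norm): the quadruples `(x, y, 3/4 (x + y), 3/4 (y + S x))`. -/
def ESub (𝕜 : Type) [RCLike 𝕜] : Submodule 𝕜 (HH 𝕜 × HH 𝕜 × HH 𝕜 × HH 𝕜) where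
  carrier := {z | z.2.2.1 = (3 / 4 : 𝕜) • (z.1 + z.2.1) ∧ z.2.2.2 = (3 / 4 : 𝕜) • (z.2.1 + S z.1)}
  add_mem' := by
    rintro z z' ⟨h1, h2⟩ ⟨h3, h4⟩
    simp only [Set.mem_ofPred_eq, Prod.fst_add, Prod.snd_add] at *
    refine ⟨?_, ?_⟩
    · rw [h1, h3, ← smul_add]; congr 1; abel
    · rw [h2, h4, ← smul_add, map_add]; congr 1; abel
  zero_mem' := by simp
  smul_mem' := by
    rintro c z ⟨h1, h2⟩
    simp only [Set.mem_ofPred_eq, Prod.smul_fst, Prod.smul_snd] at *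
    refine ⟨?_, ?_⟩
    · rw [h1, ← smul_add, smul_comm]
    · rw [h2, map_smul, ← smul_add, smul_comm]

/-- The Banach space of the counterexample. -/
def E (𝕜 : Type) [RCLike 𝕜] : Type := ESub 𝕜

noncomputable instance : NormedAddCommGroup (E 𝕜) := inferInstanceAs (NormedAddCommGroup (ESub 𝕜))
noncomputable instance : NormedSpace 𝕜 (E 𝕜) := inferInstanceAs (NormedSpace 𝕜 (ESub 𝕜))

lemma isClosed_ESub : IsClosed (ESub 𝕜 : Set (HH 𝕜 × HH 𝕜 × HH 𝕜 × HH 𝕜)) := by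
  have h1 : IsClosed {z : HH 𝕜 × HH 𝕜 × HH 𝕜 × HH 𝕜 | z.2.2.1 = (3 / 4 : 𝕜) • (z.1 + z.2.1)} :=
    isClosed_eq (by fun_prop) (by fun_prop)
  have h2 : IsClosed {z : HH 𝕜 × HH 𝕜 × HH 𝕜 × HH 𝕜 | z.2.2.2 = (3 / 4 : 𝕜) • (z.2.1 + S z.1)} :=
    isClosed_eq (by fun_prop) (by fun_prop)
  exact h1.inter h2

instance : CompleteSpace (E 𝕜) := (isClosed_ESub (𝕜 := 𝕜)).completeSpace_coe

/-- The inclusion. -/
noncomputable def incl : E 𝕜 →L[𝕜] (HH 𝕜 × HH 𝕜 × HH 𝕜 × HH 𝕜) := (ESub 𝕜).subtypeL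

lemma norm_incl (z : E 𝕜) : ‖incl z‖ = ‖z‖ := rfl

/-- The parametrisation of `E` by `H × H`. -/
noncomputable def iota : (HH 𝕜 × HH 𝕜) →L[𝕜] E 𝕜 :=
  ContinuousLinearMap.codRestrict
    ((ContinuousLinearMap.fst 𝕜 (HH 𝕜) (HH 𝕜)).prod
      ((ContinuousLinearMap.snd 𝕜 (HH 𝕜) (HH 𝕜)).prod
        (((3 / 4 : 𝕜) • (ContinuousLinearMap.fst 𝕜 (HH 𝕜) (HH 𝕜) +
            ContinuousLinearMap.snd 𝕜 (HH 𝕜) (HH 𝕜))).prod
          ((3 / 4 : 𝕜) • (ContinuousLinearMap.snd 𝕜 (HH 𝕜) (HH 𝕜) +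
            S ∘L ContinuousLinearMap.fst 𝕜 (HH 𝕜) (HH 𝕜))))))
    (ESub 𝕜) (fun _ => ⟨rfl, rfl⟩)

lemma incl_iota (x y : HH 𝕜) :
    incl (iota (x, y)) = (x, y, (3 / 4 : 𝕜) • (x + y), (3 / 4 : 𝕜) • (y + S x)) := rfl

section product

variable {K : Type*} [NormedAddCommGroup K] [NormedSpace 𝕜 K]

/-- First component. -/
noncomputable def qx : (E 𝕜 × K) →L[𝕜] HH 𝕜 :=
  (ContinuousLinearMap.fst 𝕜 _ _) ∘L incl ∘L (ContinuousLinearMap.fst 𝕜 (E 𝕜) K)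
/-- Second component. -/
noncomputable def qy : (E 𝕜 × K) →L[𝕜] HH 𝕜 :=
  (ContinuousLinearMap.fst 𝕜 _ _) ∘L (ContinuousLinearMap.snd 𝕜 _ _) ∘L incl ∘L
    (ContinuousLinearMap.fst 𝕜 (E 𝕜) K)
/-- Third component. -/
noncomputable def qs : (E 𝕜 × K) →L[𝕜] HH 𝕜 :=
  (ContinuousLinearMap.fst 𝕜 _ _) ∘L (ContinuousLinearMap.snd 𝕜 _ _) ∘L
    (ContinuousLinearMap.snd 𝕜 _ _) ∘L incl ∘L (ContinuousLinearMap.fst 𝕜 (E 𝕜) K)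
/-- Fourth component. -/
noncomputable def qt : (E 𝕜 × K) →L[𝕜] HH 𝕜 :=
  (ContinuousLinearMap.snd 𝕜 _ _) ∘L (ContinuousLinearMap.snd 𝕜 _ _) ∘L
    (ContinuousLinearMap.snd 𝕜 _ _) ∘L incl ∘L (ContinuousLinearMap.fst 𝕜 (E 𝕜) K)

lemma qs_eq (z : E 𝕜 × K) : qs z = (3 / 4 : 𝕜) • (qx z + qy z) := z.1.2.1
lemma qt_eq (z : E 𝕜 × K) : qt z = (3 / 4 : 𝕜) • (qy z + S (qx z)) := z.1.2.2

lemma norm_le_iff (z : E 𝕜 × K) (C : ℝ) :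
    ‖z‖ ≤ C ↔ ‖qx z‖ ≤ C ∧ ‖qy z‖ ≤ C ∧ ‖qs z‖ ≤ C ∧ ‖qt z‖ ≤ C ∧ ‖z.2‖ ≤ C := by
  rw [Prod.norm_def, max_le_iff, ← norm_incl, Prod.norm_def, max_le_iff, Prod.norm_def, max_le_iff,
    Prod.norm_def, max_le_iff]
  constructor
  · rintro ⟨⟨h1, h2, h3, h4⟩, h5⟩
    exact ⟨h1, h2, h3, h4, h5⟩
  · rintro ⟨h1, h2, h3, h4, h5⟩
    exact ⟨⟨h1, h2, h3, h4⟩, h5⟩

lemma norm_qx_le (z : E 𝕜 × K) : ‖qx z‖ ≤ ‖z‖ := ((norm_le_iff z ‖z‖).mp le_rfl).1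
lemma norm_qy_le (z : E 𝕜 × K) : ‖qy z‖ ≤ ‖z‖ := ((norm_le_iff z ‖z‖).mp le_rfl).2.1
lemma norm_qs_le (z : E 𝕜 × K) : ‖qs z‖ ≤ ‖z‖ := ((norm_le_iff z ‖z‖).mp le_rfl).2.2.1
lemma norm_qt_le (z : E 𝕜 × K) : ‖qt z‖ ≤ ‖z‖ := ((norm_le_iff z ‖z‖).mp le_rfl).2.2.2.1

/-- The embedding of `H × H` in `E × K`. -/
noncomputable def J : (HH 𝕜 × HH 𝕜) →L[𝕜] (E 𝕜 × K) :=
  (ContinuousLinearMap.inl 𝕜 (E 𝕜) K) ∘L iota

@[simp] lemma qx_J (x y : HH 𝕜) : qx (J (x, y) : E 𝕜 × K) = x := rfl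
@[simp] lemma qy_J (x y : HH 𝕜) : qy (J (x, y) : E 𝕜 × K) = y := rfl
lemma qs_J (x y : HH 𝕜) : qs (J (x, y) : E 𝕜 × K) = (3 / 4 : 𝕜) • (x + y) := rfl
lemma qt_J (x y : HH 𝕜) : qt (J (x, y) : E 𝕜 × K) = (3 / 4 : 𝕜) • (y + S x) := rfl
@[simp] lemma snd_J (x y : HH 𝕜) : (J (x, y) : E 𝕜 × K).2 = 0 := rfl

lemma norm34 : ‖(3 / 4 : 𝕜)‖ = 3 / 4 := by
  have : (3 / 4 : 𝕜) = ((3 / 4 : ℝ) : 𝕜) := by push_cast; ring
  rw [this, RCLike.norm_ofReal, abs_of_pos (by norm_num)]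

lemma norm_J_left (x : HH 𝕜) : ‖(J (x, 0) : E 𝕜 × K)‖ ≤ ‖x‖ := by
  rw [norm_le_iff]
  have h0 := norm_nonneg x
  refine ⟨by simp, by simp, ?_, ?_, by simp⟩
  · rw [qs_J, norm_smul, norm34, add_zero]; linarith
  · rw [qt_J, norm_smul, norm34, zero_add, norm_S]; linarith

lemma norm_J_right (y : HH 𝕜) : ‖(J (0, y) : E 𝕜 × K)‖ ≤ ‖y‖ := by
  rw [norm_le_iff]
  have h0 := norm_nonneg y
  refine ⟨by simp, by simp, ?_, ?_, by simp⟩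
  · rw [qs_J, norm_smul, norm34, zero_add]; linarith
  · rw [qt_J, norm_smul, norm34, map_zero, add_zero]; linarith

/-- If one component of `v` exceeds all the others by `1/4`, it dominates near `v`. -/
lemma dominates (q : (E 𝕜 × K) →L[𝕜] HH 𝕜) (hq : ∀ z, ‖q z‖ ≤ ‖z‖) (v : E 𝕜 × K)
    (h : (q = qx ∨ ‖qx v‖ + 1 / 4 ≤ ‖q v‖) ∧ (q = qy ∨ ‖qy v‖ + 1 / 4 ≤ ‖q v‖) ∧
      (q = qs ∨ ‖qs v‖ + 1 / 4 ≤ ‖q v‖) ∧ (q = qt ∨ ‖qt v‖ + 1 / 4 ≤ ‖q v‖) ∧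
      ‖v.2‖ + 1 / 4 ≤ ‖q v‖) :
    ∀ z, ‖z - v‖ ≤ 1 / 8 → ‖z‖ ≤ ‖q z‖ := by
  intro z hz
  have key : ∀ q' : (E 𝕜 × K) →L[𝕜] HH 𝕜, (∀ z, ‖q' z‖ ≤ ‖z‖) →
      (q = q' ∨ ‖q' v‖ + 1 / 4 ≤ ‖q v‖) → ‖q' z‖ ≤ ‖q z‖ := by
    intro q' hq' hcase
    rcases hcase with rfl | hcase
    · exact le_rfl
    · have h1 : ‖q' z‖ ≤ ‖q' v‖ + 1 / 8 := by
        have : q' z = q' v + q' (z - v) := by rw [map_sub]; abel
        rw [this]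
        exact (norm_add_le _ _).trans (add_le_add le_rfl ((hq' _).trans hz))
      have h2 : ‖q v‖ ≤ ‖q z‖ + 1 / 8 := by
        have : q v = q z - q (z - v) := by rw [map_sub]; abel
        rw [this]
        exact (norm_sub_le _ _).trans (add_le_add le_rfl ((hq _).trans hz))
      linarith
  rw [norm_le_iff]
  refine ⟨key qx norm_qx_le h.1, key qy norm_qy_le h.2.1, key qs norm_qs_le h.2.2.1,
    key qt norm_qt_le h.2.2.2.1, ?_⟩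
  have h1 : ‖z.2‖ ≤ ‖v.2‖ + 1 / 8 := by
    have : z.2 = v.2 + (z - v).2 := by simp
    rw [this]
    refine (norm_add_le _ _).trans (add_le_add le_rfl ?_)
    exact (norm_snd_le (z - v)).trans hz
  have h2 : ‖q v‖ ≤ ‖q z‖ + 1 / 8 := by
    have : q v = q z - q (z - v) := by rw [map_sub]; abel
    rw [this]
    exact (norm_sub_le _ _).trans (add_le_add le_rfl ((hq _).trans hz))
  linarith [h.2.2.2.2]

lemma norm_ev01 : ‖(ev 0 + ev 1 : HH 𝕜)‖ ≤ 5 / 3 := by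
  have h1 : ‖(ev 0 + ev 1 : HH 𝕜)‖ ^ 2 = 2 := by
    rw [norm_add_sq (𝕜 := 𝕜), norm_ev, norm_ev]
    have : ⟪(ev 0 : HH 𝕜), ev 1⟫_𝕜 = 0 := by
      have h := inner_S_ev0 (ev 0 : HH 𝕜)
      rw [S_ev] at h
      rw [← inner_conj_symm, h, map_zero]
    rw [this]
    simp
    norm_num
  have h2 := norm_nonneg (ev 0 + ev 1 : HH 𝕜)
  nlinarith

/-- The four test vectors. -/
noncomputable def v1 : E 𝕜 × K := J (ev 0, 0)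
/-- second -/
noncomputable def v2 : E 𝕜 × K := J (0, ev 0)
/-- third -/
noncomputable def v3 : E 𝕜 × K := J (ev 0, ev 0)
/-- fourth -/
noncomputable def v4 : E 𝕜 × K := J (ev 0, ev 1)

lemma dom_v1 : ∀ z : E 𝕜 × K, ‖z - v1‖ ≤ 1 / 8 → ‖z‖ ≤ ‖qx z‖ := by
  apply dominates qx norm_qx_le
  simp only [v1, qx_J, qy_J, qs_J, qt_J, snd_J, norm_smul, norm34, norm_S, norm_ev, add_zero,
    zero_add, norm_zero]
  refine ⟨Or.inl trivial, Or.inr (by norm_num), Or.inr (by norm_num), Or.inr (by norm_num), by norm_num⟩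

lemma dom_v2 : ∀ z : E 𝕜 × K, ‖z - v2‖ ≤ 1 / 8 → ‖z‖ ≤ ‖qy z‖ := by
  apply dominates qy norm_qy_le
  simp only [v2, qx_J, qy_J, qs_J, qt_J, snd_J, norm_smul, norm34, map_zero, norm_ev, add_zero,
    zero_add, norm_zero]
  refine ⟨Or.inr (by norm_num), Or.inl trivial, Or.inr (by norm_num), Or.inr (by norm_num), by norm_num⟩

lemma norm_two_smul (u : HH 𝕜) : ‖u + u‖ = 2 * ‖u‖ := by
  rw [← two_smul 𝕜 u, norm_smul]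
  simp

lemma dom_v3 : ∀ z : E 𝕜 × K, ‖z - v3‖ ≤ 1 / 8 → ‖z‖ ≤ ‖qs z‖ := by
  apply dominates qs norm_qs_le
  have h := norm_ev01 (𝕜 := 𝕜)
  simp only [v3, qx_J, qy_J, qs_J, qt_J, snd_J, norm_smul, norm34, S_ev, norm_ev, norm_two_smul,
    norm_zero, mul_one]
  refine ⟨Or.inr (by norm_num), Or.inr (by norm_num), Or.inl trivial, Or.inr ?_, by norm_num⟩
  simp only [zero_add]
  linarith

lemma dom_v4 : ∀ z : E 𝕜 × K, ‖z - v4‖ ≤ 1 / 8 → ‖z‖ ≤ ‖qt z‖ := by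
  apply dominates qt norm_qt_le
  have h := norm_ev01 (𝕜 := 𝕜)
  simp only [v4, qx_J, qy_J, qs_J, qt_J, snd_J, norm_smul, norm34, S_ev, norm_ev, zero_add,
    norm_two_smul, norm_zero, mul_one]
  refine ⟨Or.inr (by norm_num), Or.inr (by norm_num), Or.inr ?_, Or.inl trivial, by norm_num⟩
  linarith

lemma norm_v_le {x y : HH 𝕜} (hx : ‖x‖ ≤ 1) (hy : ‖y‖ ≤ 1) :
    ‖(J (x, y) : E 𝕜 × K)‖ ≤ 3 / 2 := by
  rw [norm_le_iff]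
  simp only [qx_J, qy_J, qs_J, qt_J, snd_J, norm_smul, norm34, norm_zero]
  have h1 := norm_add_le x y
  have h2 := norm_add_le y (S x)
  rw [norm_S] at h2
  refine ⟨by linarith, by linarith, by linarith, by linarith, by norm_num⟩

end product

end Pool.Agent.PiBasis
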