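import Mathlib
import Pool.Agent.PiBasis.Space

set_option autoImplicit false

open Filter Topology
open scoped InnerProductSpace

namespace Pool.Agent.PiBasis

variable {𝕜 : Type} [RCLike 𝕜]

/-- An injective finite-rank perturbation of the identity is surjective. -/
lemma surj_of_inj {V : Type*} [AddCommGroup V] [Module 𝕜 V] (R : V →ₗ[𝕜] V)
    [FiniteDimensional 𝕜 (LinearMap.range R)] (h : ∀ x, x + R x = 0 → x = 0) (e : V) :
    ∃ y, y + R y = e := by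
  set M := LinearMap.range R
  have hmaps : ∀ x ∈ M, ((LinearMap.id : V →ₗ[𝕜] V) + R) x ∈ M := by
    intro x hx
    exact M.add_mem hx ⟨x, rfl⟩
  set TM : M →ₗ[𝕜] M := ((LinearMap.id : V →ₗ[𝕜] V) + R).restrict hmaps with hTM
  have hinj : Function.Injective TM := by
    rw [injective_iff_map_eq_zero]
    intro x hx
    apply Subtype.ext
    apply h
    exact congrArg Subtype.val hx
  have hsurj : Function.Surjective TM := LinearMap.injective_iff_surjective.mp hinj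
  obtain ⟨m, hm⟩ := hsurj ⟨R e, ⟨e, rfl⟩⟩
  have hm' : (m : V) + R m = R e := congrArg Subtype.val hm
  refine ⟨e - m, ?_⟩
  rw [map_sub]
  have : e - (m : V) + (R e - R m) = e + R e - ((m : V) + R m) := by abel
  rw [this, hm']
  abel

section

variable {H : Type*} [NormedAddCommGroup H] [InnerProductSpace 𝕜 H]

/-- A vector tested against all vectors. -/
lemma norm_le_of_inner (u : H) (C : ℝ) (hC : 0 ≤ C) (h : ∀ y : H, ‖⟪u, y⟫_𝕜‖ ≤ C * ‖y‖) : ‖u‖ ≤ C := by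
  have h1 := h u
  rw [inner_self_eq_norm_sq_to_K, norm_pow, RCLike.norm_ofReal, abs_of_nonneg (norm_nonneg u)] at h1
  rcases (norm_nonneg u).eq_or_lt with h0 | h0
  · rw [← h0]; exact hC
  · nlinarith

end

/-- The final Hilbert space contradiction: there is no finite-rank operator `a` with
`⟨a x, y - a y⟩ ≈ 0`, `a S ≈ S a` and `a e₀ ≈ e₀`. -/
lemma no_finite_rank (a : HH 𝕜 →ₗ[𝕜] HH 𝕜) [FiniteDimensional 𝕜 (LinearMap.range a)] (κ : ℝ)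
    (hκ0 : 0 ≤ κ) (hκ : κ ≤ 1 / 1000)
    (hX1 : ∀ x x' : HH 𝕜, ‖⟪a x, x' - a x'⟫_𝕜‖ ≤ κ * ‖x‖ * ‖x'‖)
    (hcomm : ∀ x : HH 𝕜, ‖S (a x) - a (S x)‖ ≤ 36 * κ * ‖x‖)
    (hbd : ∀ x : HH 𝕜, ‖x - a x‖ ≤ 3 * ‖x‖)
    (he : ‖ev 0 - a (ev 0)‖ ≤ 1 / 1000) : False := by
  set R : HH 𝕜 →ₗ[𝕜] HH 𝕜 := a ∘ₗ (S : HH 𝕜 →L[𝕜] HH 𝕜).toLinearMap - a with hR
  have hfin : FiniteDimensional 𝕜 (LinearMap.range R) := by
    refine Submodule.finiteDimensional_of_le (S₂ := LinearMap.range a) ?_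
    rintro _ ⟨x, rfl⟩
    exact (LinearMap.range a).sub_mem ⟨_, rfl⟩ ⟨_, rfl⟩
  have hRx : ∀ x, x + R x = (x - a x) + a (S x) := by
    intro x
    have : R x = a (S x) - a x := rfl
    rw [this]; abel
  -- lower bound
  have hlow : ∀ x : HH 𝕜, (1 / 2) * ‖x‖ ≤ ‖x + R x‖ := by
    intro x
    rw [hRx]
    have hx0 := norm_nonneg x
    have h1 : ‖⟪S (a x), x - a x⟫_𝕜‖ ≤ 109 * κ * ‖x‖ ^ 2 := by
      have : ⟪S (a x), x - a x⟫_𝕜 = ⟪S (a x) - a (S x), x - a x⟫_𝕜 + ⟪a (S x), x - a x⟫_𝕜 := by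
        rw [← inner_add_left]; congr 1; abel
      rw [this]
      refine (norm_add_le _ _).trans ?_
      have h2 : ‖⟪S (a x) - a (S x), x - a x⟫_𝕜‖ ≤ (36 * κ * ‖x‖) * (3 * ‖x‖) :=
        (norm_inner_le_norm _ _).trans
          (mul_le_mul (hcomm x) (hbd x) (norm_nonneg _) (by positivity))
      have h3 := hX1 (S x) x
      rw [norm_S] at h3
      nlinarith
    have h4 : ‖x‖ ^ 2 ≤ ‖x - a x‖ ^ 2 + ‖a x‖ ^ 2 + 2 * (κ * ‖x‖ ^ 2) := by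
      have h5 := norm_add_sq (𝕜 := 𝕜) (a x) (x - a x)
      rw [show a x + (x - a x) = x by abel] at h5
      have h6 : RCLike.re ⟪a x, x - a x⟫_𝕜 ≤ κ * ‖x‖ ^ 2 := by
        refine (RCLike.re_le_norm _).trans ?_
        have := hX1 x x
        linarith
      linarith
    have h8 : ‖(x - a x) + S (a x)‖ ^ 2 ≥ (1 - 220 * κ) * ‖x‖ ^ 2 := by
      have : (x - a x) + S (a x) = S (a x) + (x - a x) := by abel
      rw [this, norm_add_sq (𝕜 := 𝕜), norm_S]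
      have h9 : -(109 * κ * ‖x‖ ^ 2) ≤ RCLike.re ⟪S (a x), x - a x⟫_𝕜 := by
        have := (RCLike.abs_re_le_norm ⟪S (a x), x - a x⟫_𝕜).trans h1
        exact (abs_le.mp this).1
      nlinarith
    have h10 : ‖(x - a x) + S (a x)‖ ≥ (3 / 4) * ‖x‖ := by
      have h11 : ((3 / 4) * ‖x‖) ^ 2 ≤ ‖(x - a x) + S (a x)‖ ^ 2 := by
        have : (0 : ℝ) ≤ ‖x‖ ^ 2 := by positivity
        nlinarith
      exact (pow_le_pow_iff_left₀ (by positivity) (norm_nonneg _) (by norm_num)).mp h11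
    have h12 : ‖(x - a x) + S (a x)‖ ≤ ‖(x - a x) + a (S x)‖ + ‖S (a x) - a (S x)‖ := by
      have : (x - a x) + S (a x) = ((x - a x) + a (S x)) + (S (a x) - a (S x)) := by abel
      rw [this]
      exact norm_add_le _ _
    have h13 := hcomm x
    nlinarith
  obtain ⟨y, hy⟩ := surj_of_inj R (fun x hx => by
    have := hlow x
    rw [hx, norm_zero] at this
    have h0 := norm_nonneg x
    exact norm_eq_zero.mp (by linarith)) (ev 0)
  have hy2 : ‖y‖ ≤ 2 := by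
    have := hlow y
    rw [hy, norm_ev] at this
    linarith
  have hy0 := norm_nonneg y
  -- test against e₀
  have h1 : ⟪y + R y, (ev 0 : HH 𝕜)⟫_𝕜 = 1 := by
    rw [hy, inner_self_eq_norm_sq_to_K, norm_ev]
    simp
  rw [hRx, inner_add_left] at h1
  have h2 : ‖⟪y - a y, (ev 0 : HH 𝕜)⟫_𝕜‖ ≤ 2 * κ + 6 / 1000 := by
    have : ⟪y - a y, (ev 0 : HH 𝕜)⟫_𝕜
        = ⟪y - a y, a (ev 0)⟫_𝕜 + ⟪y - a y, ev 0 - a (ev 0)⟫_𝕜 := by
      rw [← inner_add_right]; congr 1; abel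
    rw [this]
    refine (norm_add_le _ _).trans ?_
    have h3 := hX1 (ev 0) y
    rw [← inner_conj_symm, RCLike.norm_conj, norm_ev] at h3
    have h4 : ‖⟪y - a y, ev 0 - a (ev 0)⟫_𝕜‖ ≤ (3 * 2) * (1 / 1000) :=
      (norm_inner_le_norm _ _).trans
        (mul_le_mul ((hbd y).trans (by linarith)) he (norm_nonneg _) (by norm_num))
    nlinarith
  have h5 : ‖⟪a (S y), (ev 0 : HH 𝕜)⟫_𝕜‖ ≤ 72 * κ := by
    have : ⟪a (S y), (ev 0 : HH 𝕜)⟫_𝕜 = -⟪S (a y) - a (S y), (ev 0 : HH 𝕜)⟫_𝕜 := by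
      rw [inner_sub_left, inner_S_ev0]; ring
    rw [this, norm_neg]
    refine (norm_inner_le_norm _ _).trans ?_
    rw [norm_ev, mul_one]
    have := hcomm y
    nlinarith
  have h6 : ‖(1 : 𝕜)‖ ≤ (2 * κ + 6 / 1000) + 72 * κ := by
    rw [← h1]
    exact (norm_add_le _ _).trans (add_le_add h2 h5)
  rw [norm_one] at h6
  linarith

section main

variable {K : Type*} [NormedAddCommGroup K] [NormedSpace 𝕜 K]

set_option maxHeartbeats 4000000 in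
/-- **Core.** No near-contractive finite-rank projection on `E × K` almost fixes the four test
vectors. -/
theorem core (P : (E 𝕜 × K) →L[𝕜] (E 𝕜 × K))
    (hfin : FiniteDimensional 𝕜 (LinearMap.range (P : (E 𝕜 × K) →ₗ[𝕜] (E 𝕜 × K))))
    (δ : ℝ) (hδ0 : 0 ≤ δ) (hδ1 : δ ≤ 1 / 10 ^ 8)
    (hP : ∀ z, ‖P z‖ ≤ (1 + δ ^ 2) * ‖z‖) (hPP : ∀ z, P (P z) = P z)
    (h1 : ‖P v1 - v1‖ ≤ 1 / 1000) (h2 : ‖P v2 - v2‖ ≤ 1 / 1000)
    (h3 : ‖P v3 - v3‖ ≤ 1 / 1000) (h4 : ‖P v4 - v4‖ ≤ 1 / 1000) : False := by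
  have hδ1' : δ ≤ 1 := hδ1.trans (by norm_num)
  -- bounds for P
  have hP2 : ∀ z, ‖P z‖ ≤ 2 * ‖z‖ := by
    intro z
    refine (hP z).trans (mul_le_mul_of_nonneg_right ?_ (norm_nonneg _))
    nlinarith
  have hQ3 : ∀ z, ‖z - P z‖ ≤ 3 * ‖z‖ := by
    intro z
    refine (norm_sub_le _ _).trans ?_
    have := hP2 z
    linarith
  set κ : ℝ := 10752 * δ with hκ
  have hκ0 : 0 ≤ κ := by positivity
  have hκ1 : κ ≤ 1 / 1000 := by
    rw [hκ]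
    norm_num at hδ1
    linarith
  -- the four near-orthogonality relations
  have hdom : ∀ (q : (E 𝕜 × K) →L[𝕜] HH 𝕜), (∀ z, ‖q z‖ ≤ ‖z‖) → ∀ v : E 𝕜 × K, ‖v‖ ≤ 3 / 2 →
      (∀ z, ‖z - v‖ ≤ 1 / 8 → ‖z‖ ≤ ‖q z‖) → ‖P v - v‖ ≤ 1 / 1000 →
      ∀ z z' : E 𝕜 × K, ‖⟪q (P z), q (z' - P z')⟫_𝕜‖ ≤ κ * ‖z‖ * ‖z'‖ := by
    intro q hq v hv hd hPv z z'
    have hd' := dom q hq v hv hd P δ hδ0 hδ1' hP hPP (hPv.trans (by norm_num)) (P z) (z' - P z')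
      (hPP z) (by rw [map_sub, hPP, sub_self])
    refine hd'.trans ?_
    have ha := hP2 z
    have hb := hQ3 z'
    have hz := norm_nonneg z
    have hz' := norm_nonneg z'
    calc 1792 * δ * ‖P z‖ * ‖z' - P z'‖
        ≤ 1792 * δ * (2 * ‖z‖) * (3 * ‖z'‖) := by gcongr
      _ = κ * ‖z‖ * ‖z'‖ := by rw [hκ]; ring
  have hx := hdom qx norm_qx_le v1 (norm_v_le (norm_ev 0).le (by simp)) dom_v1 h1
  have hy := hdom qy norm_qy_le v2 (norm_v_le (by simp) (norm_ev 0).le) dom_v2 h2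
  have hs := hdom qs norm_qs_le v3 (norm_v_le (norm_ev 0).le (norm_ev 0).le) dom_v3 h3
  have ht := hdom qt norm_qt_le v4 (norm_v_le (norm_ev 0).le (norm_ev 1).le) dom_v4 h4
  -- matrix entries
  set JL : HH 𝕜 →ₗ[𝕜] (E 𝕜 × K) := (J : (HH 𝕜 × HH 𝕜) →L[𝕜] (E 𝕜 × K)).toLinearMap ∘ₗ
    LinearMap.inl 𝕜 (HH 𝕜) (HH 𝕜) with hJL
  set JR : HH 𝕜 →ₗ[𝕜] (E 𝕜 × K) := (J : (HH 𝕜 × HH 𝕜) →L[𝕜] (E 𝕜 × K)).toLinearMap ∘ₗ
    LinearMap.inr 𝕜 (HH 𝕜) (HH 𝕜) with hJR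
  have hJLn : ∀ x, ‖JL x‖ ≤ ‖x‖ := fun x => norm_J_left x
  have hJRn : ∀ y, ‖JR y‖ ≤ ‖y‖ := fun y => norm_J_right y
  set a : HH 𝕜 →ₗ[𝕜] HH 𝕜 := qx.toLinearMap ∘ₗ P.toLinearMap ∘ₗ JL with ha
  set b : HH 𝕜 → HH 𝕜 := fun y => qx (P (JR y)) with hb
  set c : HH 𝕜 → HH 𝕜 := fun x => qy (P (JL x)) with hc
  set d : HH 𝕜 → HH 𝕜 := fun y => qy (P (JR y)) with hd
  have ha' : ∀ x, a x = qx (P (JL x)) := fun x => rfl
  have hb' : ∀ y, b y = qx (P (JR y)) := fun y => rfl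
  have hc' : ∀ x, c x = qy (P (JL x)) := fun x => rfl
  have hd' : ∀ y, d y = qy (P (JR y)) := fun y => rfl
  have hqxL : ∀ x, qx (JL x - P (JL x)) = x - a x := by
    intro x; rw [map_sub, ha']; rfl
  have hqxR : ∀ y, qx (JR y - P (JR y)) = -b y := by
    intro y; rw [map_sub, hb']
    have : qx (JR y) = 0 := rfl
    rw [this, zero_sub]
  have hqyL : ∀ x, qy (JL x - P (JL x)) = -c x := by
    intro x; rw [map_sub, hc']
    have : qy (JL x) = 0 := rfl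
    rw [this, zero_sub]
  have hqyR : ∀ y, qy (JR y - P (JR y)) = y - d y := by
    intro y; rw [map_sub, hd']; rfl
  have hmulLL : ∀ x x' : HH 𝕜, κ * ‖JL x‖ * ‖JL x'‖ ≤ κ * ‖x‖ * ‖x'‖ := by
    intro x x'
    have := hJLn x; have := hJLn x'
    gcongr
  have hmulLR : ∀ x x' : HH 𝕜, κ * ‖JL x‖ * ‖JR x'‖ ≤ κ * ‖x‖ * ‖x'‖ := by
    intro x x'
    have := hJLn x; have := hJRn x'
    gcongr
  have hmulRL : ∀ x x' : HH 𝕜, κ * ‖JR x‖ * ‖JL x'‖ ≤ κ * ‖x‖ * ‖x'‖ := by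
    intro x x'
    have := hJRn x; have := hJLn x'
    gcongr
  have X1 : ∀ x x', ‖⟪a x, x' - a x'⟫_𝕜‖ ≤ κ * ‖x‖ * ‖x'‖ := by
    intro x x'
    have := (hx (JL x) (JL x')).trans (hmulLL x x')
    rwa [hqxL, ← ha'] at this
  have X2 : ∀ x y, ‖⟪a x, b y⟫_𝕜‖ ≤ κ * ‖x‖ * ‖y‖ := by
    intro x y
    have := (hx (JL x) (JR y)).trans (hmulLR x y)
    rwa [hqxR, ← ha', inner_neg_right, norm_neg] at this
  have X3 : ∀ y x', ‖⟪b y, x' - a x'⟫_𝕜‖ ≤ κ * ‖y‖ * ‖x'‖ := by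
    intro y x'
    have := (hx (JR y) (JL x')).trans (hmulRL y x')
    rwa [hqxL, ← hb'] at this
  have Y2 : ∀ y x', ‖⟪d y, c x'⟫_𝕜‖ ≤ κ * ‖y‖ * ‖x'‖ := by
    intro y x'
    have := (hy (JR y) (JL x')).trans (hmulRL y x')
    rwa [hqyL, ← hd', inner_neg_right, norm_neg] at this
  have Y3 : ∀ x y', ‖⟪c x, y' - d y'⟫_𝕜‖ ≤ κ * ‖x‖ * ‖y'‖ := by
    intro x y'
    have := (hy (JL x) (JR y')).trans (hmulLR x y')
    rwa [hqyR, ← hc'] at this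
  have B : ∀ y, ‖b y‖ ≤ 2 * κ * ‖y‖ := by
    intro y
    apply norm_le_of_inner (𝕜 := 𝕜) _ _ (by positivity)
    intro x
    have : ⟪b y, x⟫_𝕜 = ⟪b y, x - a x⟫_𝕜 + ⟪b y, a x⟫_𝕜 := by
      rw [← inner_add_right]; congr 1; abel
    rw [this]
    refine (norm_add_le _ _).trans ?_
    have e1 := X3 y x
    have e2 := X2 x y
    rw [← inner_conj_symm, RCLike.norm_conj] at e2
    nlinarith
  have C : ∀ x, ‖c x‖ ≤ 2 * κ * ‖x‖ := by
    intro x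
    apply norm_le_of_inner (𝕜 := 𝕜) _ _ (by positivity)
    intro y
    have : ⟪c x, y⟫_𝕜 = ⟪c x, y - d y⟫_𝕜 + ⟪c x, d y⟫_𝕜 := by
      rw [← inner_add_right]; congr 1; abel
    rw [this]
    refine (norm_add_le _ _).trans ?_
    have e1 := Y3 x y
    have e2 := Y2 y x
    rw [← inner_conj_symm, RCLike.norm_conj] at e2
    nlinarith
  -- size bounds for the full components
  have n34 : ∀ u : HH 𝕜, ‖(3 / 4 : 𝕜) • u‖ = 3 / 4 * ‖u‖ := fun u => by rw [norm_smul, norm34]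
  have sumL : ∀ x, ‖a x + c x‖ ≤ 3 * ‖x‖ := by
    intro x
    have e1 := (norm_qs_le (P (JL x))).trans ((hP2 _).trans (mul_le_mul_of_nonneg_left (hJLn x) (by norm_num)))
    rw [qs_eq, n34, ← ha', ← hc'] at e1
    have := norm_nonneg x
    linarith
  have sumR : ∀ y, ‖b y + d y‖ ≤ 3 * ‖y‖ := by
    intro y
    have e1 := (norm_qs_le (P (JR y))).trans ((hP2 _).trans (mul_le_mul_of_nonneg_left (hJRn y) (by norm_num)))
    rw [qs_eq, n34, ← hb', ← hd'] at e1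
    have := norm_nonneg y
    linarith
  have sumLt : ∀ x, ‖c x + S (a x)‖ ≤ 3 * ‖x‖ := by
    intro x
    have e1 := (norm_qt_le (P (JL x))).trans ((hP2 _).trans (mul_le_mul_of_nonneg_left (hJLn x) (by norm_num)))
    rw [qt_eq, n34, ← ha', ← hc'] at e1
    have := norm_nonneg x
    linarith
  have sumRt : ∀ y, ‖d y + S (b y)‖ ≤ 3 * ‖y‖ := by
    intro y
    have e1 := (norm_qt_le (P (JR y))).trans ((hP2 _).trans (mul_le_mul_of_nonneg_left (hJRn y) (by norm_num)))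
    rw [qt_eq, n34, ← hb', ← hd'] at e1
    have := norm_nonneg y
    linarith
  have inner34 : ∀ u w : HH 𝕜, ‖⟪(3 / 4 : 𝕜) • u, (3 / 4 : 𝕜) • w⟫_𝕜‖ = 9 / 16 * ‖⟪u, w⟫_𝕜‖ := by
    intro u w
    rw [inner_smul_left, inner_smul_right, norm_mul, norm_mul, RCLike.norm_conj, norm34]
    ring
  have S1 : ∀ x y, ‖⟪a x, y - d y⟫_𝕜‖ ≤ 9 * κ * ‖x‖ * ‖y‖ := by
    intro x y
    have e := (hs (JL x) (JR y)).trans (hmulLR x y)
    rw [qs_eq, qs_eq, inner34, hqxR, hqyR, ← ha', ← hc'] at e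
    have : ⟪a x, y - d y⟫_𝕜 = ⟪a x + c x, -b y + (y - d y)⟫_𝕜 - ⟪c x, y - d y⟫_𝕜
        + ⟪a x + c x, b y⟫_𝕜 := by
      rw [inner_add_right, inner_neg_right, inner_add_left (a x) (c x) (y - d y)]
      ring
    rw [this]
    refine (norm_add_le _ _).trans ((add_le_add_left (norm_sub_le _ _) _).trans ?_)
    have e2 := Y3 x y
    have e3 : ‖⟪a x + c x, b y⟫_𝕜‖ ≤ (3 * ‖x‖) * (2 * κ * ‖y‖) :=
      (norm_inner_le_norm _ _).trans (mul_le_mul (sumL x) (B y) (norm_nonneg _) (by positivity))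
    nlinarith [mul_nonneg (mul_nonneg hκ0 (norm_nonneg x)) (norm_nonneg y)]
  have S2 : ∀ y x, ‖⟪d y, x - a x⟫_𝕜‖ ≤ 9 * κ * ‖y‖ * ‖x‖ := by
    intro y x
    have e := (hs (JR y) (JL x)).trans (hmulRL y x)
    rw [qs_eq, qs_eq, inner34, hqxL, hqyL, ← hb', ← hd'] at e
    have : ⟪d y, x - a x⟫_𝕜 = ⟪b y + d y, x - a x + -c x⟫_𝕜 - ⟪b y, x - a x⟫_𝕜
        + ⟪b y + d y, c x⟫_𝕜 := by
      rw [inner_add_right, inner_neg_right, inner_add_left (b y) (d y) (x - a x)]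
      ring
    rw [this]
    refine (norm_add_le _ _).trans ((add_le_add_left (norm_sub_le _ _) _).trans ?_)
    have e2 := X3 y x
    have e3 : ‖⟪b y + d y, c x⟫_𝕜‖ ≤ (3 * ‖y‖) * (2 * κ * ‖x‖) :=
      (norm_inner_le_norm _ _).trans (mul_le_mul (sumR y) (C x) (norm_nonneg _) (by positivity))
    nlinarith [mul_nonneg (mul_nonneg hκ0 (norm_nonneg y)) (norm_nonneg x)]
  have T1 : ∀ x y, ‖⟪S (a x), y - d y⟫_𝕜‖ ≤ 9 * κ * ‖x‖ * ‖y‖ := by
    intro x y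
    have e := (ht (JL x) (JR y)).trans (hmulLR x y)
    rw [qt_eq, qt_eq, inner34, hqxR, hqyR, ← ha', ← hc', map_neg] at e
    have : ⟪S (a x), y - d y⟫_𝕜 = ⟪c x + S (a x), y - d y + -S (b y)⟫_𝕜 - ⟪c x, y - d y⟫_𝕜
        + ⟪c x + S (a x), S (b y)⟫_𝕜 := by
      rw [inner_add_right, inner_neg_right, inner_add_left (c x) (S (a x)) (y - d y)]
      ring
    rw [this]
    refine (norm_add_le _ _).trans ((add_le_add_left (norm_sub_le _ _) _).trans ?_)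
    have e2 := Y3 x y
    have e3 : ‖⟪c x + S (a x), S (b y)⟫_𝕜‖ ≤ (3 * ‖x‖) * (2 * κ * ‖y‖) := by
      refine (norm_inner_le_norm _ _).trans (mul_le_mul (sumLt x) ?_ (norm_nonneg _) (by positivity))
      rw [norm_S]; exact B y
    nlinarith [mul_nonneg (mul_nonneg hκ0 (norm_nonneg x)) (norm_nonneg y)]
  have T2 : ∀ y x, ‖⟪d y, S (x - a x)⟫_𝕜‖ ≤ 9 * κ * ‖y‖ * ‖x‖ := by
    intro y x
    have e := (ht (JR y) (JL x)).trans (hmulRL y x)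
    rw [qt_eq, qt_eq, inner34, hqxL, hqyL, ← hb', ← hd'] at e
    have : ⟪d y, S (x - a x)⟫_𝕜 = ⟪d y + S (b y), -c x + S (x - a x)⟫_𝕜 - ⟪S (b y), S (x - a x)⟫_𝕜
        + ⟪d y + S (b y), c x⟫_𝕜 := by
      rw [inner_add_right, inner_neg_right, inner_add_left (d y) (S (b y)) (S (x - a x))]
      ring
    rw [this]
    refine (norm_add_le _ _).trans ((add_le_add_left (norm_sub_le _ _) _).trans ?_)
    have e2 := X3 y x
    rw [← inner_S] at e2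
    have e3 : ‖⟪d y + S (b y), c x⟫_𝕜‖ ≤ (3 * ‖y‖) * (2 * κ * ‖x‖) :=
      (norm_inner_le_norm _ _).trans (mul_le_mul (sumRt y) (C x) (norm_nonneg _) (by positivity))
    nlinarith [mul_nonneg (mul_nonneg hκ0 (norm_nonneg y)) (norm_nonneg x)]
  -- commutation with the shift
  have comm : ∀ x, ‖S (a x) - a (S x)‖ ≤ 36 * κ * ‖x‖ := by
    intro x
    apply norm_le_of_inner (𝕜 := 𝕜) _ _ (by positivity)
    intro y
    have : ⟪S (a x) - a (S x), y⟫_𝕜 = ⟪S (a x), y - d y⟫_𝕜 - ⟪S (x - a x), d y⟫_𝕜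
        + ⟪S x - a (S x), d y⟫_𝕜 - ⟪a (S x), y - d y⟫_𝕜 := by
      rw [map_sub]
      simp only [inner_sub_left, inner_sub_right]
      ring
    rw [this]
    have e1 := T1 x y
    have e2 := T2 y x
    have e3 := S2 y (S x)
    have e4 := S1 (S x) y
    rw [← inner_conj_symm, RCLike.norm_conj] at e2 e3
    rw [norm_S] at e3 e4
    have t1 := norm_sub_le (⟪S (a x), y - d y⟫_𝕜 - ⟪S (x - a x), d y⟫_𝕜 + ⟪S x - a (S x), d y⟫_𝕜)
      ⟪a (S x), y - d y⟫_𝕜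
    have t2 := norm_add_le (⟪S (a x), y - d y⟫_𝕜 - ⟪S (x - a x), d y⟫_𝕜) ⟪S x - a (S x), d y⟫_𝕜
    have t3 := norm_sub_le ⟪S (a x), y - d y⟫_𝕜 ⟪S (x - a x), d y⟫_𝕜
    linarith
  -- finite rank of a
  have hafin : FiniteDimensional 𝕜 (LinearMap.range a) := by
    have : LinearMap.range a ≤ (LinearMap.range P.toLinearMap).map qx.toLinearMap := by
      rintro _ ⟨x, rfl⟩
      exact ⟨P (JL x), ⟨JL x, rfl⟩, rfl⟩
    have hf2 : FiniteDimensional 𝕜 (LinearMap.range P.toLinearMap) := hfin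
    exact Submodule.finiteDimensional_of_le this
  refine no_finite_rank a κ hκ0 hκ1 X1 comm ?_ ?_
  · intro x
    rw [← hqxL]
    exact (norm_qx_le _).trans ((hQ3 _).trans (mul_le_mul_of_nonneg_left (hJLn x) (by norm_num)))
  · have e := (norm_qx_le (P v1 - v1)).trans h1
    rw [map_sub] at e
    have e2 : (ev 0 : HH 𝕜) - a (ev 0) = -(qx (P (v1 : E 𝕜 × K)) - qx (v1 : E 𝕜 × K)) := by
      rw [neg_sub]; rfl
    rw [e2, norm_neg]
    exact e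

end main

end Pool.Agent.PiBasis
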