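import Mathlib

set_option autoImplicit false

open Filter Topology
open scoped ENNReal

namespace Pool.Agent.PiBasis

/-- `T` is a linear operator of finite rank on `X`: it is linear over `𝕜` and its range lies in the
linear span of a finite set. -/
def FiniteRank (𝕜 : Type) [NormedField 𝕜] {X : Type*} [NormedAddCommGroup X] [NormedSpace 𝕜 X]
    (T : X → X) : Prop :=
  IsLinearMap 𝕜 T ∧ ∃ s : Finset X, ∀ x, T x ∈ Submodule.span 𝕜 (s : Set X)

/-- The metric approximation property: for every compact set `K` and every `ε > 0` there is a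
finite-rank linear operator `T` with norm at most one and `‖T x - x‖ < ε` for all `x ∈ K`. -/
def HasMAP (𝕜 : Type) [NormedField 𝕜] (X : Type*) [NormedAddCommGroup X] [NormedSpace 𝕜 X] :
    Prop :=
  ∀ K : Set X, IsCompact K → ∀ ε : ℝ, 0 < ε →
    ∃ T : X → X, FiniteRank 𝕜 T ∧ (∀ x, ‖T x‖ ≤ ‖x‖) ∧ ∀ x ∈ K, ‖T x - x‖ < ε

/-- A `π_lam`-basis: finite-rank linear operators `u n` of norm at most `lam` with `u n x → x` for
all `x`, and `u m (u n x) = u n x` for `n ≤ m` (so that each `u n` is a projection). -/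
def HasPiBasis (𝕜 : Type) [NormedField 𝕜] (X : Type*) [NormedAddCommGroup X] [NormedSpace 𝕜 X]
    (lam : ℝ) : Prop :=
  ∃ u : ℕ → X → X, (∀ n, FiniteRank 𝕜 (u n)) ∧ (∀ n x, ‖u n x‖ ≤ lam * ‖x‖) ∧
    (∀ x, Tendsto (fun n => u n x) atTop (𝓝 x)) ∧ ∀ n m x, n ≤ m → u m (u n x) = u n x

end Pool.Agent.PiBasis
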