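import Mathlib
import Pool.Agent.PiBasis.Space
import Pool.Agent.PiBasis.Defs

set_option autoImplicit false

open Filter Topology

namespace Pool.Agent.PiBasis

variable {𝕜 : Type} [RCLike 𝕜]

section general

variable {X : Type*} [NormedAddCommGroup X] [NormedSpace 𝕜 X]

/-- Pointwise convergence of contractions is uniform on compact sets. -/
lemma uniform_on_compact (T : ℕ → X →L[𝕜] X) (hT : ∀ n, ‖T n‖ ≤ 1)
    (hlim : ∀ x, Tendsto (fun n => T n x) atTop (𝓝 x)) (K : Set X) (hK : IsCompact K)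
    (ε : ℝ) (hε : 0 < ε) : ∃ n, ∀ x ∈ K, ‖T n x - x‖ < ε := by
  obtain ⟨t, ht, hKt⟩ := Metric.totallyBounded_iff.mp hK.totallyBounded (ε / 3) (by positivity)
  have h1 : ∀ᶠ n in atTop, ∀ y ∈ t, ‖T n y - y‖ < ε / 3 := by
    rw [Filter.eventually_all_finite ht]
    intro y _
    have := hlim y
    rw [Metric.tendsto_nhds] at this
    filter_upwards [this (ε / 3) (by positivity)] with n hn
    rwa [dist_eq_norm] at hn
  obtain ⟨n, hn⟩ := h1.exists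
  refine ⟨n, fun x hx => ?_⟩
  obtain ⟨y, hy, hxy⟩ := Set.mem_iUnion₂.mp (hKt hx)
  rw [Metric.mem_ball, dist_eq_norm] at hxy
  have h2 : ‖T n (x - y)‖ ≤ ‖x - y‖ := by
    have := (T n).le_of_opNorm_le (hT n) (x - y)
    linarith
  have h3 : T n x - x = T n (x - y) + (T n y - y) - (x - y) := by
    rw [map_sub]; abel
  rw [h3]
  calc ‖T n (x - y) + (T n y - y) - (x - y)‖
      ≤ ‖T n (x - y) + (T n y - y)‖ + ‖x - y‖ := norm_sub_le _ _
    _ ≤ ‖T n (x - y)‖ + ‖T n y - y‖ + ‖x - y‖ := by gcongr; exact norm_add_le _ _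
    _ < ε := by
      have := hn y hy
      linarith

/-- Passing from continuous linear maps to the plain notion of finite rank. -/
lemma finiteRank_of_clm (T : X →L[𝕜] X)
    (h : FiniteDimensional 𝕜 (LinearMap.range (T : X →ₗ[𝕜] X))) : FiniteRank 𝕜 (fun x => T x) := by
  refine ⟨T.toLinearMap.isLinear, ?_⟩
  obtain ⟨s, hs⟩ := Module.Finite.iff_fg.mp h
  refine ⟨s, fun x => ?_⟩
  rw [hs]
  exact ⟨x, rfl⟩

/-- A space with pointwise approximating finite-rank operators is separable. -/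
lemma separable_of_approx (T : ℕ → X →L[𝕜] X)
    (hfin : ∀ n, FiniteDimensional 𝕜 (LinearMap.range (T n : X →ₗ[𝕜] X)))
    (hlim : ∀ x, Tendsto (fun n => T n x) atTop (𝓝 x)) : TopologicalSpace.SeparableSpace X := by
  rw [← TopologicalSpace.isSeparable_univ_iff]
  have h1 : ∀ n, TopologicalSpace.IsSeparable
      ((LinearMap.range (T n : X →ₗ[𝕜] X) : Submodule 𝕜 X) : Set X) := by
    intro n
    have hf : FiniteDimensional 𝕜 (LinearMap.range (T n : X →ₗ[𝕜] X)) := hfin n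
    have hp : ProperSpace (LinearMap.range (T n : X →ₗ[𝕜] X)) := FiniteDimensional.proper 𝕜 _
    exact TopologicalSpace.IsSeparable.of_subtype _
  have h2 := (TopologicalSpace.IsSeparable.iUnion h1).closure
  refine h2.mono fun x _ => ?_
  refine mem_closure_of_tendsto (hlim x) (Eventually.of_forall fun n => ?_)
  exact Set.mem_iUnion.mpr ⟨n, ⟨x, rfl⟩⟩

end general

/-- The two free coordinates. -/
noncomputable def pr : E 𝕜 →L[𝕜] (HH 𝕜 × HH 𝕜) :=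
  ((ContinuousLinearMap.fst 𝕜 _ _) ∘L incl).prod
    ((ContinuousLinearMap.fst 𝕜 _ _) ∘L (ContinuousLinearMap.snd 𝕜 _ _) ∘L incl)

lemma iota_pr (z : E 𝕜) : iota (pr z) = z := by
  apply Subtype.ext
  refine Prod.ext rfl (Prod.ext rfl (Prod.ext ?_ ?_))
  · exact z.2.1.symm
  · exact z.2.2.symm

/-- Truncations of `E`. -/
noncomputable def U (n : ℕ) : E 𝕜 →L[𝕜] E 𝕜 := iota ∘L ((D n).prodMap (D n)) ∘L pr

lemma incl_U (n : ℕ) (z : E 𝕜) : incl (U n z) =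
    (D n z.1.1, D n z.1.2.1, (3 / 4 : 𝕜) • (D n z.1.1 + D n z.1.2.1),
      (3 / 4 : 𝕜) • (D n z.1.2.1 + S (D n z.1.1))) := rfl

lemma norm_U_le (n : ℕ) (z : E 𝕜) : ‖U n z‖ ≤ (1 + 1 / ((n : ℝ) + 1)) * ‖z‖ := by
  have hz : max ‖z.1.1‖ (max ‖z.1.2.1‖ (max ‖z.1.2.2.1‖ ‖z.1.2.2.2‖)) = ‖z‖ := rfl
  have h1 : ‖z.1.1‖ ≤ ‖z‖ := by rw [← hz]; exact le_max_left _ _
  have h2 : ‖z.1.2.1‖ ≤ ‖z‖ := by
    rw [← hz]; exact (le_max_left _ _).trans (le_max_right _ _)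
  have h3 : ‖z.1.2.2.1‖ ≤ ‖z‖ := by
    rw [← hz]; exact (le_max_left _ _).trans ((le_max_right _ _).trans (le_max_right _ _))
  have h4 : ‖z.1.2.2.2‖ ≤ ‖z‖ := by
    rw [← hz]; exact (le_max_right _ _).trans ((le_max_right _ _).trans (le_max_right _ _))
  have hz0 := norm_nonneg z
  have hn : (0 : ℝ) ≤ 1 / ((n : ℝ) + 1) := by positivity
  have hle : ‖z‖ ≤ (1 + 1 / ((n : ℝ) + 1)) * ‖z‖ := by nlinarith
  rw [← norm_incl, incl_U, Prod.norm_def, Prod.norm_def, Prod.norm_def]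
  refine max_le ?_ (max_le ?_ (max_le ?_ ?_))
  · exact ((norm_D_le n _).trans h1).trans hle
  · exact ((norm_D_le n _).trans h2).trans hle
  · have : (3 / 4 : 𝕜) • (D n z.1.1 + D n z.1.2.1) = D n z.1.2.2.1 := by
      rw [z.2.1, map_smul, map_add]
    change ‖(3 / 4 : 𝕜) • (D n z.1.1 + D n z.1.2.1)‖ ≤ _
    rw [this]
    exact ((norm_D_le n _).trans h3).trans hle
  · change ‖(3 / 4 : 𝕜) • (D n z.1.2.1 + S (D n z.1.1))‖ ≤ _
    have : (3 / 4 : 𝕜) • (D n z.1.2.1 + S (D n z.1.1))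
        = D n z.1.2.2.2 - (3 / 4 : 𝕜) • (D n (S z.1.1) - S (D n z.1.1)) := by
      rw [z.2.2, map_smul, map_add, ← smul_sub]
      congr 1
      abel
    rw [this]
    refine (norm_sub_le _ _).trans ?_
    have h5 := (norm_D_le n z.1.2.2.2).trans h4
    have h6 := comm_le n z.1.1
    rw [norm_smul, norm34]
    have h7 : (1 / ((n : ℝ) + 1)) * ‖z.1.1‖ ≤ (1 / ((n : ℝ) + 1)) * ‖z‖ :=
      mul_le_mul_of_nonneg_left h1 hn
    have h8 : 0 ≤ (1 / ((n : ℝ) + 1)) * ‖z‖ := by positivity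
    linarith

lemma U_tendsto (z : E 𝕜) : Tendsto (fun n => U n z) atTop (𝓝 z) := by
  have h1 : Tendsto (fun n => ((D n (pr z).1, D n (pr z).2) : HH 𝕜 × HH 𝕜)) atTop
      (𝓝 ((pr z).1, (pr z).2)) := (D_tendsto _).prodMk_nhds (D_tendsto _)
  have h2 := (iota.continuous.tendsto (pr z)).comp h1
  rw [iota_pr] at h2
  exact h2

/-- Normalised truncations. -/
noncomputable def V (n : ℕ) : E 𝕜 →L[𝕜] E 𝕜 :=
  (((1 + 1 / ((n : ℝ) + 1))⁻¹ : ℝ) : 𝕜) • U n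

lemma norm_V_le (n : ℕ) : ‖(V n : E 𝕜 →L[𝕜] E 𝕜)‖ ≤ 1 := by
  refine ContinuousLinearMap.opNorm_le_bound _ zero_le_one fun z => ?_
  have h : (0 : ℝ) < 1 + 1 / ((n : ℝ) + 1) := by positivity
  rw [V, smul_apply, norm_smul, RCLike.norm_ofReal,
    abs_of_pos (by positivity), one_mul, ← div_eq_inv_mul, div_le_iff₀ h, mul_comm]
  exact norm_U_le n z

lemma V_tendsto (z : E 𝕜) : Tendsto (fun n => V n z) atTop (𝓝 z) := by
  have h1 : Tendsto (fun n : ℕ => (((1 + 1 / ((n : ℝ) + 1))⁻¹ : ℝ) : 𝕜)) atTop (𝓝 ((1 : ℝ) : 𝕜)) := by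
    refine (RCLike.continuous_ofReal.tendsto 1).comp ?_
    have : Tendsto (fun n : ℕ => (1 + 1 / ((n : ℝ) + 1))⁻¹) atTop (𝓝 (1 + 0)⁻¹) :=
      (tendsto_const_nhds.add tendsto_one_div_add_atTop_nhds_zero_nat).inv₀ (by norm_num)
    simpa using this
  have h2 := h1.smul (U_tendsto z)
  simpa [V] using h2

lemma V_finite (n : ℕ) :
    FiniteDimensional 𝕜 (LinearMap.range ((V n : E 𝕜 →L[𝕜] E 𝕜) : E 𝕜 →ₗ[𝕜] E 𝕜)) := by
  have hD := D_finite (𝕜 := 𝕜) n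
  set M := LinearMap.range ((D n : HH 𝕜 →L[𝕜] HH 𝕜) : HH 𝕜 →ₗ[𝕜] HH 𝕜) with hM
  have hMM : FiniteDimensional 𝕜 (M.prod M) := by
    have h1 : M.FG := Module.Finite.iff_fg.mp hD
    exact Module.Finite.iff_fg.mpr (h1.prod h1)
  have : LinearMap.range ((V n : E 𝕜 →L[𝕜] E 𝕜) : E 𝕜 →ₗ[𝕜] E 𝕜) ≤ (M.prod M).map (iota : _ →L[𝕜] E 𝕜).toLinearMap := by
    rintro _ ⟨z, rfl⟩
    refine Submodule.smul_mem _ _ ?_
    exact ⟨(D n (pr z).1, D n (pr z).2), ⟨⟨_, rfl⟩, ⟨_, rfl⟩⟩, rfl⟩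
  exact Submodule.finiteDimensional_of_le this

/-- Approximation by contractions of finite rank, uniformly on compact sets, gives `HasMAP`. -/
lemma hasMAP_of_approx {X : Type*} [NormedAddCommGroup X] [NormedSpace 𝕜 X] (T : ℕ → X →L[𝕜] X)
    (hT : ∀ n, ‖T n‖ ≤ 1) (hfin : ∀ n, FiniteDimensional 𝕜 (LinearMap.range (T n : X →ₗ[𝕜] X)))
    (hlim : ∀ x, Tendsto (fun n => T n x) atTop (𝓝 x)) : HasMAP 𝕜 X := by
  intro K hK ε hε
  obtain ⟨n, hn⟩ := uniform_on_compact T hT hlim K hK ε hε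
  refine ⟨fun z => T n z, finiteRank_of_clm (T n) (hfin n), fun z => ?_, hn⟩
  have := (T n).le_of_opNorm_le (hT n) z
  rwa [one_mul] at this

/-- `E` has the metric approximation property. -/
theorem hasMAP_E : HasMAP 𝕜 (E 𝕜) :=
  hasMAP_of_approx (𝕜 := 𝕜) (X := E 𝕜) V norm_V_le V_finite V_tendsto

/-- `E` is separable. -/
theorem separable_E : TopologicalSpace.SeparableSpace (E 𝕜) :=
  separable_of_approx V V_finite V_tendsto

end Pool.Agent.PiBasis
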